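import Pool.Agent.H55.QR.Targets

/-! Row FINP3 of the board `qr_modules`. -/

set_option autoImplicit false

namespace Pool.Agent.H99.QR

open Matrix Finset
open H43.PS
open Pool.Agent.H55.QR
open Pool.Agent.H96.KX (S_X3)

theorem sq_le_two_pow' : ∀ B : ℕ, 4 ≤ B → B * B ≤ 2 ^ B := by
  intro B hB
  induction B, hB using Nat.le_induction with
  | base => norm_num
  | succ k hk ih =>
    rw [pow_succ]
    nlinarith

theorem pf_FINP3 (hC : S_PCORE3) (hX : S_EXP3) (h3 : S_X3) : S_FINP3 := by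
  intro ε hε
  obtain ⟨R0, E, B0, hR0, hE, h⟩ := h3 ε hε
  have hE' : (0 : ℝ) < (E : ℝ) := by exact_mod_cast hE
  obtain ⟨q, hq, hP⟩ := hX (1 / (6 * (E : ℝ))) (by positivity)
  have hq' : (0 : ℝ) < (q : ℝ) := by exact_mod_cast hq
  refine ⟨1 / (2 * (q : ℝ)), 1 / (2 * (q : ℝ)), by positivity, by positivity, 4 * R0,
    1 / (2 * (q : ℝ)), by positivity, (B0 + 9 * E + R0 + 4) * q, ?_⟩
  intro n hn
  set B := n / q with hB
  have hBge : B0 + 9 * E + R0 + 4 ≤ B := (Nat.le_div_iff_mul_le hq).2 hn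
  have hBn : B * q ≤ n := Nat.div_mul_le_self n q
  have hnB : n < (B + 1) * q := by
    have := Nat.lt_div_mul_add (a := n) hq
    rw [← hB] at this
    linarith [this, add_mul B 1 q]
  have hRB : R0 * B ≤ 2 ^ B := by
    refine le_trans ?_ (sq_le_two_pow' B (by omega))
    exact Nat.mul_le_mul_right B (by omega)
  have ht9 : 9 ≤ B / E := (Nat.le_div_iff_mul_le hE).2 (by omega)
  obtain ⟨T, Y, hT, hA, hz⟩ := h B (by omega)
  have hPS : PSB3 (ZMod 2) B q (B / E / 3 / 2) ((2 : ℝ) ^ B) (((2 : ℝ) ^ B)⁻¹) (((2 : ℝ) ^ B)⁻¹) := by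
    apply hP
    have h6 : B / E / 3 / 2 = B / (6 * E) := by
      rw [Nat.div_div_eq_div_mul, Nat.div_div_eq_div_mul]
      congr 1
      ring
    rw [h6]
    have hlt : B < (B / (6 * E) + 1) * (6 * E) := by
      have := Nat.lt_div_mul_add (a := B) (show 0 < 6 * E by omega)
      linarith [this, add_mul (B / (6 * E)) 1 (6 * E)]
    have hlt' : (B : ℝ) < (((B / (6 * E) : ℕ) : ℝ) + 1) * (6 * (E : ℝ)) := by
      exact_mod_cast hlt
    rw [one_div, inv_mul_le_iff₀ (by positivity)]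
    linarith
  obtain ⟨Y', m, phi, hY, h1, h2⟩ := hC B (R0 * B) (B / E) q n ε T Y
    (Nat.one_le_iff_ne_zero.2 (Nat.mul_ne_zero (by omega) (by omega))) ht9 hq hBn hRB hT hA hz
    ((2 : ℝ) ^ B) (((2 : ℝ) ^ B)⁻¹) (((2 : ℝ) ^ B)⁻¹) hPS
  have hBle : B ≤ n := le_trans (Nat.le_mul_of_pos_right B hq) hBn
  have hexp : 1 / (2 * (q : ℝ)) * (n : ℝ) ≤ (B : ℝ) := by
    have h5 : (n : ℝ) ≤ ((B : ℝ) + 1) * q := by exact_mod_cast hnB.le
    have h6 : (1 : ℝ) ≤ (B : ℝ) := by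
      have : 1 ≤ B := by omega
      exact_mod_cast this
    rw [one_div, inv_mul_le_iff₀ (by positivity)]
    nlinarith
  have hpow : (2 : ℝ) ^ (1 / (2 * (q : ℝ)) * (n : ℝ)) ≤ (2 : ℝ) ^ B := by
    rw [← Real.rpow_natCast]
    exact Real.rpow_le_rpow_of_exponent_le (by norm_num) hexp
  have hpow' : ((2 : ℝ) ^ B)⁻¹ ≤ (2 : ℝ) ^ (-(1 / (2 * (q : ℝ)) * (n : ℝ))) := by
    rw [Real.rpow_neg (by norm_num)]
    exact inv_anti₀ (Real.rpow_pos_of_pos (by norm_num) _) hpow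
  refine ⟨Y', m, phi, hY, ?_, ?_⟩
  · intro a
    obtain ⟨ha1, ha2, ha3, ha4⟩ := h1 a
    refine ⟨ha1, ?_, ha3, ha4⟩
    calc m a ≤ 4 * (R0 * B) := ha2
      _ = 4 * R0 * B := by ring
      _ ≤ 4 * R0 * n := Nat.mul_le_mul_left _ hBle
  · intro ι _ _ L S A de hc hde hL hS htr
    have hpos : (0 : ℝ) < (2 : ℝ) ^ (-(1 / (2 * (q : ℝ)) * (n : ℝ))) :=
      Real.rpow_pos_of_pos (by norm_num) _
    have h7 := h2 ι L S A de (hc.trans hpow) (lt_of_lt_of_le hpos hde) (hpow'.trans hde) hL hS htr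
    refine h7.trans ?_
    exact mul_le_mul_of_nonneg_right hpow' (Nat.cast_nonneg _)

end Pool.Agent.H99.QR
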